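import Pool.Agent.Lib.MP_d55432_al.G2.Iface

/-!
# G2, module NIL: the nilpotent elements
-/

namespace Pool.Agent.Lib.MP_d55432_al.G2

open Matrix LieAlgebra MvPolynomial

attribute [local instance 100] LieRing.ofAssociativeRing

namespace H61

section

variable {K : Type*} [Field K]

theorem conj_mul {g h : M7 K} (H : IsG g h) (P Q : M7 K) :
    (g * P * h) * (g * Q * h) = g * (P * Q) * h := by
  calc (g * P * h) * (g * Q * h) = g * P * (h * g) * Q * h := by
        simp only [Matrix.mul_assoc]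
    _ = _ := by rw [H.2.1, Matrix.mul_one]; simp only [Matrix.mul_assoc]

theorem conj_pow {g h : M7 K} (H : IsG g h) (P : M7 K) (n : ℕ) :
    (g * P * h) ^ n = g * P ^ n * h := by
  induction n with
  | zero => simp [H.1]
  | succ n ih => rw [pow_succ, ih, conj_mul H, pow_succ]

theorem conj_rank {g h : M7 K} (H : IsG g h) (P : M7 K) : (g * P * h).rank = P.rank := by
  have hg : IsUnit g.det := by
    have := congrArg Matrix.det H.1
    rw [Matrix.det_mul, Matrix.det_one] at this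
    exact IsUnit.of_mul_eq_one _ this
  have hh : IsUnit h.det := by
    have := congrArg Matrix.det H.2.1
    rw [Matrix.det_mul, Matrix.det_one] at this
    exact IsUnit.of_mul_eq_one _ this
  rw [Matrix.rank_mul_eq_left_of_isUnit_det h (g * P) hh,
    Matrix.rank_mul_eq_right_of_isUnit_det g P hg]

theorem cj_sq_rank {N X : M7 K} (h : Cj N X) : (X * X).rank = (N * N).rank := by
  obtain ⟨g, h, H, rfl⟩ := h
  rw [conj_mul H, conj_rank H]

theorem cj_pow {N X : M7 K} (h : Cj N X) (n : ℕ) : X ^ n = 0 ↔ N ^ n = 0 := by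
  obtain ⟨g, h, H, rfl⟩ := h
  rw [conj_pow H]
  constructor
  · intro h0
    have : h * (g * N ^ n * h) * g = 0 := by rw [h0]; simp
    have h2 : h * (g * N ^ n * h) * g = (h * g) * N ^ n * (h * g) := by
      simp only [Matrix.mul_assoc]
    rw [h2, H.2.1] at this
    simpa using this
  · intro h0
    rw [h0]; simp

theorem cj_trans {X Y Z : M7 K} (h1 : Cj X Y) (h2 : Cj Y Z) : Cj X Z := by
  obtain ⟨g, h, H, rfl⟩ := h1
  obtain ⟨g', h', H', rfl⟩ := h2
  exact ⟨g' * g, h * h', H'.mul H, by simp only [Matrix.mul_assoc]⟩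

/-- rank of a monomial matrix -/
theorem rank_mono [DecidableEq K] (d : Fin 7 → K) (σ : Equiv.Perm (Fin 7)) :
    (Matrix.diagonal d * σ.permMatrix K).rank = Fintype.card {i // d i ≠ 0} := by
  rw [Matrix.rank_mul_eq_left_of_isUnit_det, Matrix.rank_diagonal]
  rw [Matrix.det_permutation]
  rcases Int.units_eq_one_or (Equiv.Perm.sign σ) with h | h <;> simp [h]

theorem n1_sq : N1 K * N1 K = 0 := by
  ext i j
  fin_cases i <;> fin_cases j <;> simp [N1, gM, Matrix.mul_apply, Fin.sum_univ_succ]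

theorem n2_sq : N2 K * N2 K =
    Matrix.diagonal ![0, -2, 0, 0, 0, 0, 0] * (Equiv.swap (1 : Fin 7) 4).permMatrix K := by
  ext i j
  rw [Matrix.diagonal_mul]
  fin_cases i <;> fin_cases j <;> simp [N2, gM, Matrix.mul_apply, Fin.sum_univ_succ,
    Equiv.Perm.permMatrix, PEquiv.toMatrix_apply, Equiv.swap_apply_def]

theorem n3_sq : N3 K * N3 K =
    Matrix.diagonal ![0, 1, 0, 0, 0, 0, 1] *
      (Equiv.swap (1 : Fin 7) 3 * Equiv.swap 6 4).permMatrix K := by
  ext i j
  rw [Matrix.diagonal_mul]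
  fin_cases i <;> fin_cases j <;> simp [N3, gM, Matrix.mul_apply, Fin.sum_univ_succ,
    Equiv.Perm.permMatrix, PEquiv.toMatrix_apply, Equiv.swap_apply_def]

/-- A permutation of seven letters. -/
def sg : Equiv.Perm (Fin 7) :=
  ⟨![3, 5, 4, 1, 6, 2, 0], ![6, 3, 5, 0, 2, 1, 4], by decide, by decide⟩

theorem n4_sq : N4 K * N4 K =
    Matrix.diagonal ![-1, -1, -1, 0, 0, -2, -2] * sg.permMatrix K := by
  ext i j
  rw [Matrix.diagonal_mul]
  fin_cases i <;> fin_cases j <;> simp [N4, gM, Matrix.mul_apply, Fin.sum_univ_succ,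
    Equiv.Perm.permMatrix, PEquiv.toMatrix_apply, sg]

theorem n1_rank : (N1 K * N1 K).rank = 0 := by
  rw [n1_sq, Matrix.rank_zero]

theorem n2_rank [CharZero K] : (N2 K * N2 K).rank = 1 := by
  classical
  rw [n2_sq, rank_mono, Fintype.card_subtype]
  have : (Finset.univ.filter fun i : Fin 7 => (![0, -2, 0, 0, 0, 0, 0] : Fin 7 → K) i ≠ 0) =
      {1} := by
    ext i
    fin_cases i <;> simp
  rw [this]
  rfl

theorem n3_rank [CharZero K] : (N3 K * N3 K).rank = 2 := by
  classical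
  rw [n3_sq, rank_mono, Fintype.card_subtype]
  have : (Finset.univ.filter fun i : Fin 7 => (![0, 1, 0, 0, 0, 0, 1] : Fin 7 → K) i ≠ 0) =
      {1, 6} := by
    ext i
    fin_cases i <;> simp
  rw [this]
  rfl

theorem n4_rank [CharZero K] : (N4 K * N4 K).rank = 5 := by
  classical
  rw [n4_sq, rank_mono, Fintype.card_subtype]
  have : (Finset.univ.filter fun i : Fin 7 => (![-1, -1, -1, 0, 0, -2, -2] : Fin 7 → K) i ≠ 0) =
      {0, 1, 2, 5, 6} := by
    ext i
    fin_cases i <;> simp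
  rw [this]
  rfl

theorem n1_pow : N1 K ^ 5 = 0 := by
  rw [show (5 : ℕ) = 2 + 3 from rfl, pow_add, pow_two, n1_sq, zero_mul]

theorem n2_pow : N2 K ^ 5 = 0 := by
  have h : N2 K ^ 4 = 0 := by
    rw [show (4 : ℕ) = 2 + 2 from rfl, pow_add, pow_two]
    have e : N2 K * N2 K = (-2 : K) • Matrix.single 1 4 1 := by
      ext i j
      fin_cases i <;> fin_cases j <;> simp [N2, gM, Matrix.mul_apply, Fin.sum_univ_succ]
    rw [e]
    simp [Matrix.single_mul_single_of_ne]
  rw [pow_succ, h, zero_mul]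

theorem n3_pow : N3 K ^ 5 = 0 := by
  have h : N3 K ^ 4 = 0 := by
    rw [show (4 : ℕ) = 2 + 2 from rfl, pow_add, pow_two]
    have e : N3 K * N3 K = Matrix.single 1 3 1 + Matrix.single 6 4 1 := by
      ext i j
      fin_cases i <;> fin_cases j <;> simp [N3, gM, Matrix.mul_apply, Fin.sum_univ_succ]
    rw [e]
    simp [Matrix.single_mul_single_of_ne, add_mul, mul_add]
  rw [pow_succ, h, zero_mul]

theorem n4_pow [CharZero K] : N4 K ^ 5 ≠ 0 := by
  intro h
  have h2 : N4 K ^ 5 = (N4 K * N4 K) * (N4 K * N4 K) * N4 K := by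
    rw [pow_succ, show (4 : ℕ) = 2 + 2 from rfl, pow_add, pow_two]
  have e1 : (N4 K * N4 K) *ᵥ Pi.single 4 1 = -Pi.single 2 1 := by
    funext i
    fin_cases i <;> simp [N4, gM, Matrix.mul_apply, Fin.sum_univ_succ, Matrix.mulVec, dotProduct,
      Pi.single_apply]
  have e2 : (N4 K * N4 K) *ᵥ Pi.single 2 1 = -(2 : K) • Pi.single 5 1 := by
    funext i
    fin_cases i <;> simp [N4, gM, Matrix.mul_apply, Fin.sum_univ_succ, Matrix.mulVec, dotProduct,
      Pi.single_apply]
  have e3 : N4 K *ᵥ Pi.single 5 1 = -Pi.single 6 1 := by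
    funext i
    fin_cases i <;> simp [N4, gM, Matrix.mulVec, dotProduct, Pi.single_apply]
  have h3 : N4 K * ((N4 K * N4 K) * (N4 K * N4 K)) = 0 := by
    rw [← h, h2]
    simp only [Matrix.mul_assoc]
  have h4 : (N4 K * ((N4 K * N4 K) * (N4 K * N4 K))) *ᵥ Pi.single 4 1 =
      -(2 : K) • Pi.single 6 1 := by
    rw [← Matrix.mulVec_mulVec, ← Matrix.mulVec_mulVec, e1, Matrix.mulVec_neg, e2,
      ← smul_neg, Matrix.mulVec_smul, Matrix.mulVec_neg, e3]
    simp
  rw [h3] at h4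
  have h5 := congrFun h4 6
  simp at h5

theorem classify (hA : NILA_S K) (hC : NILC_S K) (hD : NILD_S K) (hF : FLAG_S K) (hR : DER_S K)
    {X : M7 K} (hX : X ∈ g2 K) (h7 : X ^ 7 = 0) (h0 : X ≠ 0) :
    Cj (N1 K) X ∨ Cj (N2 K) X ∨ Cj (N3 K) X ∨ Cj (N4 K) X := by
  by_cases hE : ∃ e, qq e ≠ 0 ∧ X *ᵥ e = 0
  · rcases hA X hX h7 hE with h | h | h
    · exact absurd h h0
    · exact Or.inl h
    · exact Or.inr (Or.inr (Or.inl h))
  · have hE' : ∀ e, X *ᵥ e = 0 → qq e = 0 := by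
      intro e he
      by_contra hq
      exact hE ⟨e, hq, he⟩
    obtain ⟨w, y, hw, hy, hwy, hw0, hXw, hXy⟩ := hC X hX h7 hE'
    have hyc : ∀ c : K, y ≠ c • w := by
      intro c hc
      rw [hc, Matrix.mulVec_smul, hXw, smul_zero] at hXy
      exact hw0 hXy.symm
    obtain ⟨g, h, H, hg1, hg6⟩ := hF w y hw hy hwy hw0 hyc
    have hh1 : h *ᵥ w = ee 1 := by
      rw [← hg1, Matrix.mulVec_mulVec, H.2.1, Matrix.one_mulVec]
    have hX' : h * X * g ∈ g2 K := conj_mem H.symm hX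
    have h7' : (h * X * g) ^ 7 = 0 := by
      rw [conj_pow H.symm, h7]; simp
    have h1 : (h * X * g) *ᵥ ee 1 = 0 := by
      rw [← Matrix.mulVec_mulVec, ← Matrix.mulVec_mulVec, hg1, hXw, Matrix.mulVec_zero]
    have h6 : (h * X * g) *ᵥ ee 6 = ee 1 := by
      rw [← Matrix.mulVec_mulVec, ← Matrix.mulVec_mulVec, hg6, hXy, hh1]
    have hcj : Cj (h * X * g) X := by
      refine ⟨g, h, H, ?_⟩
      have : g * (h * X * g) * h = (g * h) * X * (g * h) := by simp only [Matrix.mul_assoc]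
      rw [this, H.1, Matrix.one_mul, Matrix.mul_one]
    rcases hD _ hX' h7' h1 h6 with ⟨e, he, hXe⟩ | h2 | h4
    · exfalso
      have : X *ᵥ (g *ᵥ e) = 0 := by
        have e1 : g *ᵥ ((h * X * g) *ᵥ e) = X *ᵥ (g *ᵥ e) := by
          rw [Matrix.mulVec_mulVec, Matrix.mulVec_mulVec]
          congr 1
          calc g * (h * X * g) = (g * h) * X * g := by simp only [Matrix.mul_assoc]
            _ = _ := by rw [H.1, Matrix.one_mul]
        rw [← e1, hXe, Matrix.mulVec_zero]
      have hq := hE' _ this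
      rw [hR.2.2.1 g h H e] at hq
      exact he hq
    · exact Or.inr (Or.inl (cj_trans h2 hcj))
    · exact Or.inr (Or.inr (Or.inr (cj_trans h4 hcj)))

end

end H61

/-- NIL: the nilpotent elements. -/
theorem nil (K : Type*) [Field K] [CharZero K] (hA : NILA_S K) (hC : NILC_S K) (hD : NILD_S K)
    (hF : FLAG_S K) (hR : DER_S K) : NIL_S K := by
  constructor
  · intro X hX h7 h0
    rcases H61.classify hA hC hD hF hR hX h7 h0 with h | h | h | h
    · exact Or.inl ⟨by rw [H61.cj_sq_rank h, H61.n1_rank], h⟩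
    · exact Or.inr (Or.inl ⟨by rw [H61.cj_sq_rank h, H61.n2_rank], h⟩)
    · exact Or.inr (Or.inr (Or.inl ⟨by rw [H61.cj_sq_rank h, H61.n3_rank], h⟩))
    · exact Or.inr (Or.inr (Or.inr ⟨by rw [H61.cj_sq_rank h, H61.n4_rank], h⟩))
  · intro X hX h7
    by_cases h0 : X = 0
    · subst h0
      simp
    rcases H61.classify hA hC hD hF hR hX h7 h0 with h | h | h | h
    · rw [H61.cj_sq_rank h, H61.n1_rank, ne_eq, H61.cj_pow h, H61.n1_pow]
      simp
    · rw [H61.cj_sq_rank h, H61.n2_rank, ne_eq, H61.cj_pow h, H61.n2_pow]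
      simp
    · rw [H61.cj_sq_rank h, H61.n3_rank, ne_eq, H61.cj_pow h, H61.n3_pow]
      simp
    · rw [H61.cj_sq_rank h, H61.n4_rank, ne_eq, H61.cj_pow h]
      simp [H61.n4_pow]

end Pool.Agent.Lib.MP_d55432_al.G2
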